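import Mathlib
import Pool.Agent.P.MP_053b7f_lc.Arena

/-!
# The set-splitting game with any number of parts

A splits into parts indexed by `M`, B into parts indexed by `N`. For two-element `M` and `N` this
is the game `G(E)` of the problem. The moves of A are `a 0, a 1, …`, those of B are
`b 0, b 1, …`, played in the order `a 0, b 0, a 1, b 1, …`.
-/

namespace Pool.Agent.Results.MP_053b7f_lc.ManyParts

open Cardinal

universe u

/-- One move: the mover takes the set `S` and splits it into the parts `P i`, `i : I`. -/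
structure Move (E I : Type u) where
  /-- the set taken by the mover -/
  S : Set E
  /-- the parts of the split -/
  P : I → Set E

/-- The parts are pairwise disjoint (some may be empty) and their union is the set taken. -/
def Move.Splits {E I : Type u} (c : Move E I) : Prop :=
  (∀ i j, i ≠ j → Disjoint (c.P i) (c.P j)) ∧ ⋃ i, c.P i = c.S

/-- Move `a n` of A obeys the rules: the first set is `E`, a later set is a part of the last move
of B, and the move splits its set. -/
def LegalA {E M N : Type u} (a : ℕ → Move E M) (b : ℕ → Move E N) (n : ℕ) : Prop :=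
  (n = 0 → (a n).S = Set.univ) ∧ (∀ k, n = k + 1 → ∃ j, (a n).S = (b k).P j) ∧ (a n).Splits

/-- Move `b n` of B obeys the rules: its set is a part of `a n`, and the move splits its set. -/
def LegalB {E M N : Type u} (a : ℕ → Move E M) (b : ℕ → Move E N) (n : ℕ) : Prop :=
  (∃ i, (b n).S = (a n).P i) ∧ (b n).Splits

/-- The history `[(a 0, b 0), …, (a (n-1), b (n-1))]` seen by A before move `a n`. -/
def history {E M N : Type u} (a : ℕ → Move E M) (b : ℕ → Move E N) (n : ℕ) :
    List (Move E M × Move E N) :=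
  (List.range n).map fun i => (a i, b i)

/-- `σ` is a strategy for A: after legal moves in which A has followed `σ`, the move given by `σ`
is legal. -/
def IsStrategyA {E M N : Type u} (σ : List (Move E M × Move E N) → Move E M) : Prop :=
  ∀ (a : ℕ → Move E M) (b : ℕ → Move E N) (n : ℕ), (∀ i < n, LegalA a b i ∧ LegalB a b i) →
    (∀ i ≤ n, a i = σ (history a b i)) → LegalA a b n

/-- `σ` is a winning strategy for A: it is a strategy, and in every legal play in which A follows
it the sets taken after the first move have empty intersection. -/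
def IsWinningStrategyA {E M N : Type u} (σ : List (Move E M × Move E N) → Move E M) : Prop :=
  IsStrategyA σ ∧
    ∀ (a : ℕ → Move E M) (b : ℕ → Move E N), (∀ n, LegalA a b n ∧ LegalB a b n) →
      (∀ n, a n = σ (history a b n)) → ⋂ n, ((b n).S ∩ (a (n + 1)).S) = ∅

section Proof

open Pool.Agent.P.MP_053b7f_lc

variable {E M N : Type u}

theorem history_succ (a : ℕ → Move E M) (b : ℕ → Move E N) (n : ℕ) :
    history a b (n + 1) = history a b n ++ [(a n, b n)] := by
  simp [history, List.range_succ]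

/-- The set `S` split along the fibres of `g`. -/
def fib {I : Type u} (S : Set E) (g : E → I) : Move E I := ⟨S, fun j => S ∩ g ⁻¹' {j}⟩

theorem fib_splits {I : Type u} (S : Set E) (g : E → I) : (fib S g).Splits := by
  refine ⟨fun i j hij => Set.disjoint_left.2 fun x hx hx' => hij (hx.2.symm.trans hx'.2), ?_⟩
  ext x
  simp [fib]

open Classical in
/-- The arena of a strategy; the flag records that the answers of `σ` were legal so far. -/
noncomputable def arena [Nonempty M] [Nonempty N] (σ : List (Move E M × Move E N) → Move E M) :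
    Arena E M N where
  Pos := List (Move E M × Move E N) × Prop
  S s := {x | s.2 → x ∈ (σ s.1).S}
  part s m := {x | s.2 → x ∈ (σ s.1).P m ∨ ¬ (σ s.1).Splits}
  pick s m g :=
    if h : ∃ j, (σ (s.1 ++ [(σ s.1, fib ((σ s.1).P m) g)])).S = (fib ((σ s.1).P m) g).P j then
      h.choose else Classical.arbitrary N
  next s m g := (s.1 ++ [(σ s.1, fib ((σ s.1).P m) g)], s.2 ∧ (σ s.1).Splits ∧
    ∃ j, (σ (s.1 ++ [(σ s.1, fib ((σ s.1).P m) g)])).S = (fib ((σ s.1).P m) g).P j)
  cov s x hx := by
    by_cases h : s.2 ∧ (σ s.1).Splits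
    · have h1 := hx h.1
      rw [← h.2.2] at h1
      obtain ⟨m, hm⟩ := Set.mem_iUnion.1 h1
      exact ⟨m, fun _ => Or.inl hm⟩
    · exact ⟨Classical.arbitrary M, fun h1 => Or.inr fun h2 => h ⟨h1, h2⟩⟩
  keep s m g x hx hg := by
    rintro ⟨h1, h2, h3⟩
    rw [dif_pos h3] at hg
    change x ∈ (σ (s.1 ++ [(σ s.1, fib ((σ s.1).P m) g)])).S
    rw [h3.choose_spec]
    exact ⟨(hx h1).resolve_right fun h => h h2, hg⟩

theorem cover_of_winning [Nontrivial M] [Nontrivial N]
    (σ : List (Move E M × Move E N) → Move E M) (hσ : IsWinningStrategyA σ) :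
    ∃ 𝒞 : Set (Set E), #𝒞 ≤ max #M ℵ₀ ∧ (∀ C ∈ 𝒞, #C < #N) ∧ ⋃₀ 𝒞 = Set.univ := by
  classical
  by_contra H
  have h0 : (σ []).S = Set.univ :=
    (hσ.1 (fun _ => σ []) (fun _ => fib ∅ fun _ => Classical.arbitrary N) 0
      (fun i hi => absurd hi (Nat.not_lt_zero i))
      (fun i hi => by rw [Nat.le_zero.1 hi]; rfl)).1 rfl
  obtain ⟨x, s, m, g, hs0, hs, hx⟩ := (arena σ).survive (([], True) : (arena σ).Pos)
    (Set.eq_univ_of_forall fun x _ => by change x ∈ (σ []).S; rw [h0]; trivial) H
  let a : ℕ → Move E M := fun n => σ (s n).1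
  let b : ℕ → Move E N := fun n => fib ((a n).P (m n)) (g n)
  have hh : ∀ n, history a b n = (s n).1 := by
    intro n
    induction n with
    | zero => rw [hs0]; rfl
    | succ n ih => rw [history_succ, ih, hs n]; rfl
  have hB : ∀ n, LegalB a b n := fun n => ⟨⟨m n, rfl⟩, fib_splits _ _⟩
  have hA : ∀ n, LegalA a b n := by
    intro n
    induction n using Nat.strong_induction_on with
    | _ n ih => exact hσ.1 a b n (fun i hi => ⟨ih i hi, hB i⟩) fun i _ => by rw [hh]
  have hf : ∀ n, (s n).2 := by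
    intro n
    induction n with
    | zero => rw [hs0]; trivial
    | succ n ih =>
      obtain ⟨j, hj⟩ := (hA (n + 1)).2.1 n rfl
      have h1 : (s (n + 1)).1 = (s n).1 ++ [(a n, b n)] := by rw [hs n]; rfl
      rw [hs n]
      refine ⟨ih, (hA n).2.2, j, ?_⟩
      change (σ ((s n).1 ++ [(a n, b n)])).S = _
      rw [← h1]
      exact hj
  have hmem : x ∈ ⋂ n, ((b n).S ∩ (a (n + 1)).S) := Set.mem_iInter.2 fun n =>
    ⟨((hx n).2 (hf n)).resolve_right fun h => h (hA n).2.2, (hx (n + 1)).1 (hf (n + 1))⟩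
  rw [hσ.2 a b (fun n => ⟨hA n, hB n⟩) fun n => by rw [hh]] at hmem
  exact hmem

theorem winning_of_cuts [Nonempty N] (c : ℕ → E → M)
    (hc : ∀ x, ∃ n, #(c n ⁻¹' {c n x}) < #N) :
    ∃ σ : List (Move E M × Move E N) → Move E M, IsWinningStrategyA σ := by
  classical
  let j₀ : N := Classical.arbitrary N
  let S : List (Move E M × Move E N) → Set E := fun l =>
    match l.getLast? with
    | none => Set.univ
    | some y => if ∃ j, y.2.P j = ∅ then ∅ else y.2.P j₀
  have hS : ∀ (a : ℕ → Move E M) (b : ℕ → Move E N) (k : ℕ), S (history a b (k + 1)) =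
      if ∃ j, (b k).P j = ∅ then ∅ else (b k).P j₀ := by
    intro a b k
    simp [S, history_succ]
  refine ⟨fun l => fib (S l) (c l.length), ?_, ?_⟩
  · intro a b n _ ha
    have h := ha n le_rfl
    refine ⟨?_, ?_, h ▸ fib_splits _ _⟩
    · rintro rfl
      rw [h]; rfl
    · rintro k rfl
      rw [h]
      change ∃ j, S _ = _
      rw [hS]
      split_ifs with h1
      · exact h1.imp fun j hj => hj.symm
      · exact ⟨j₀, rfl⟩
  · intro a b hl ha
    refine Set.eq_empty_of_forall_notMem fun x hx => ?_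
    obtain ⟨n, hn⟩ := hc x
    obtain ⟨h1, h2⟩ := Set.mem_iInter.1 hx n
    obtain ⟨⟨i, hi⟩, h3, h4⟩ := (hl n).2
    have hlen : (history a b n).length = n := by simp [history]
    have hsub : (b n).S ⊆ c n ⁻¹' {i} := by
      rw [hi, ha n]
      intro y hy
      have := hy.2
      rwa [hlen] at this
    have hxi : c n x = i := hsub h1
    rw [ha (n + 1)] at h2
    change x ∈ S _ at h2
    rw [hS] at h2
    split_ifs at h2 with h5
    · exact h2
    · push Not at h5
      choose y hy using h5
      refine absurd hn (not_lt.2 ?_)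
      refine mk_le_of_injective (f := fun j => (⟨y j, ?_⟩ : c n ⁻¹' {c n x})) ?_
      · rw [hxi]
        exact hsub (h4 ▸ Set.mem_iUnion.2 ⟨j, hy j⟩)
      · intro j k hjk
        by_contra hne
        have h6 : y j = y k := congrArg Subtype.val hjk
        exact Set.disjoint_left.1 (h3 j k hne) (hy j) (h6 ▸ hy k)

theorem winning_of_cover [Nontrivial M] [Nontrivial N] (𝒞 : Set (Set E))
    (h1 : #𝒞 ≤ max #M ℵ₀) (h2 : ∀ C ∈ 𝒞, #C < #N) (h3 : ⋃₀ 𝒞 = Set.univ) :
    ∃ σ : List (Move E M × Move E N) → Move E M, IsWinningStrategyA σ := by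
  classical
  have h4 : ∀ x : E, ∃ C : 𝒞, x ∈ C.1 := fun x => by
    obtain ⟨C, hC, hx⟩ := Set.mem_sUnion.1 (h3 ▸ Set.mem_univ x)
    exact ⟨⟨C, hC⟩, hx⟩
  choose C hC using h4
  rcases le_max_iff.1 h1 with h | h
  · obtain ⟨φ⟩ := (Cardinal.le_def _ _).1 h
    refine winning_of_cuts (fun _ x => φ (C x)) fun x => ⟨0, ?_⟩
    refine (mk_le_mk_of_subset fun y hy => ?_).trans_lt (h2 _ (C x).2)
    have : C y = C x := φ.injective hy
    exact this ▸ hC y
  · have : Countable 𝒞 := mk_le_aleph0_iff.1 h
    obtain ⟨f, hf⟩ := Countable.exists_injective_nat 𝒞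
    obtain ⟨m₀, m₁, hm⟩ := exists_pair_ne M
    refine winning_of_cuts (fun n x => if f (C x) = n then m₀ else m₁) fun x => ⟨f (C x), ?_⟩
    refine (mk_le_mk_of_subset fun y hy => ?_).trans_lt (h2 _ (C x).2)
    simp only [Set.mem_preimage, if_true, Set.mem_singleton_iff] at hy
    have : C y = C x := hf (by by_contra h'; rw [if_neg h'] at hy; exact hm hy.symm)
    exact this ▸ hC y

end Proof

/-- A has a winning strategy exactly when `E` is the union of at most `max |M| ℵ₀` sets, each of
cardinality less than `|N|`. -/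
theorem result (E M N : Type u) [Nontrivial M] [Nontrivial N] :
    (∃ σ : List (Move E M × Move E N) → Move E M, IsWinningStrategyA σ) ↔
      ∃ 𝒞 : Set (Set E), #𝒞 ≤ max #M ℵ₀ ∧ (∀ C ∈ 𝒞, #C < #N) ∧ ⋃₀ 𝒞 = Set.univ :=
  ⟨fun ⟨σ, hσ⟩ => cover_of_winning σ hσ, fun ⟨𝒞, h1, h2, h3⟩ => winning_of_cover 𝒞 h1 h2 h3⟩

/-- The game of the problem (two parts on both sides): A wins exactly on countable sets. -/
theorem two_parts (E : Type u) :
    (∃ σ : List (Move E (ULift Bool) × Move E (ULift Bool)) → Move E (ULift Bool),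
      IsWinningStrategyA σ) ↔ Countable E := by
  rw [result]
  have h2 : #(ULift.{u} Bool) = 2 := by simp
  have h3 : max (2 : Cardinal.{u}) ℵ₀ = ℵ₀ := max_eq_right (natCast_lt_aleph0 (n := 2)).le
  rw [h2, h3]
  constructor
  · rintro ⟨𝒞, h4, h5, h6⟩
    rw [← Set.countable_univ_iff, ← h6]
    refine Set.Countable.sUnion (le_aleph0_iff_set_countable.1 h4) fun C hC => ?_
    exact le_aleph0_iff_set_countable.1 ((h5 C hC).le.trans (natCast_lt_aleph0 (n := 2)).le)
  · intro h
    refine ⟨Set.range fun x : E => {x}, mk_range_le.trans mk_le_aleph0, ?_, ?_⟩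
    · rintro _ ⟨x, rfl⟩
      rw [mk_singleton]; exact one_lt_two
    · exact Set.eq_univ_of_forall fun x => ⟨{x}, ⟨x, rfl⟩, rfl⟩

end Pool.Agent.Results.MP_053b7f_lc.ManyParts
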